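import Pool.Agent.Y142.SU.Stm
import Pool.Agent.Y758.ZD.Abs
import Pool.Agent.Y155.ZI.Tens

set_option autoImplicit false

/-!
Project Y142-SU (owner helper142), task `S_DCT`: double commutant with tangent vectors.
-/

open Matrix Polynomial Filter Topology
open Pool.Agent.Y142.ZO Pool.Agent.Y142.ZI

namespace Pool.Agent.Y246.SU.DCT

/-- density for a semisimple module -/
theorem dens {K V : Type} [Field K] [AddCommGroup V] [Module K V] [FiniteDimensional K V]
    (S : Subalgebra K (Module.End K V))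
    (hss : ∀ W : Submodule K V, (∀ a ∈ S, ∀ w ∈ W, a w ∈ W) →
      ∃ W' : Submodule K V, (∀ a ∈ S, ∀ w ∈ W', a w ∈ W') ∧ IsCompl W W')
    (φ : Module.End K V)
    (hcom : ∀ d : Module.End K V, (∀ a ∈ S, d * a = a * d) → ∀ v, φ (d v) = d (φ v)) :
    φ ∈ S := by
  classical
  have hsm : ∀ (c : K) (v : V), (algebraMap K S c) • v = c • v := by
    intro c v
    rw [Subalgebra.smul_def, Subalgebra.coe_algebraMap, Module.End.smul_def,
      Module.algebraMap_end_apply]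
  have hsemi : IsSemisimpleModule S V := by
    rw [isSemisimpleModule_iff]
    refine { exists_isCompl := fun W => ?_ }
    let W1 : Submodule K V :=
      { carrier := W
        add_mem' := fun h1 h2 => W.add_mem h1 h2
        zero_mem' := W.zero_mem
        smul_mem' := fun c w hw => by
          have h1 : (algebraMap K S c) • w ∈ W := W.smul_mem _ hw
          rw [hsm] at h1
          exact h1 }
    obtain ⟨W', h1, h2⟩ := hss W1 (fun a ha w hw => W.smul_mem (⟨a, ha⟩ : S) hw)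
    let W2 : Submodule S V :=
      { carrier := W'
        add_mem' := fun h1 h2 => W'.add_mem h1 h2
        zero_mem' := W'.zero_mem
        smul_mem' := fun c w hw => h1 c.1 c.2 w hw }
    refine ⟨W2, ?_⟩
    rw [isCompl_iff, Submodule.disjoint_def, codisjoint_iff, Submodule.eq_top_iff']
    refine ⟨fun x hx hx' => ?_, fun x => ?_⟩
    · exact (Submodule.disjoint_def.1 h2.disjoint) x hx hx'
    · have h3 : x ∈ W1 ⊔ W' := by
        rw [h2.sup_eq_top]
        trivial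
      obtain ⟨y, hy, z, hz, hyz⟩ := Submodule.mem_sup.1 h3
      exact Submodule.mem_sup.2 ⟨y, hy, z, hz, hyz⟩
  let f : Module.End (Module.End S V) V :=
    { toFun := φ
      map_add' := fun x y => map_add φ x y
      map_smul' := fun g v => by
        let d : Module.End K V :=
          { toFun := g
            map_add' := fun x y => map_add g x y
            map_smul' := fun c v => by
              rw [← hsm, map_smul, hsm]
              rfl }
        exact hcom d (fun a ha => by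
          refine LinearMap.ext fun v => ?_
          exact g.map_smul (⟨a, ha⟩ : S) v) v }
  let b := Module.finBasis K V
  obtain ⟨r, hr⟩ := jacobson_density f (Finset.univ.image b)
  have h1 : φ = r.1 := b.ext fun i => hr (b i) (Finset.mem_image_of_mem _ (Finset.mem_univ i))
  rw [h1]
  exact r.2

variable {ℓ : ℕ} [Fact ℓ.Prime] {N : ℕ}

/-- subspaces stable under an open subgroup are stable under the tangent vectors -/
theorem stab {G : Type} [Group G] [TopologicalSpace G] [IsTopologicalGroup G] [CompactSpace G]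
    (ρ : G →* Matrix (Fin N) (Fin N) ℚ_[ℓ]) (U : Subgroup G) (hU : IsOpen (U : Set G))
    (W : Submodule ℚ_[ℓ] (Fin N → ℚ_[ℓ])) (hW : ∀ σ ∈ U, ∀ w ∈ W, ρ σ *ᵥ w ∈ W)
    (X : Matrix (Fin N) (Fin N) ℚ_[ℓ]) (hX : IsTangent ℓ ρ X) (w : Fin N → ℚ_[ℓ]) (hw : w ∈ W) :
    X *ᵥ w ∈ W := by
  obtain ⟨σ, hσ⟩ := hX
  have hfin : Finite (G ⧸ U) := Subgroup.quotient_finite_of_isOpen U hU
  have hidx : U.index ≠ 0 := Subgroup.index_ne_zero_of_finite
  obtain ⟨e, he0, he⟩ : ∃ e : ℕ, e ≠ 0 ∧ ∀ g : G, g ^ e ∈ U :=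
    ⟨U.index.factorial, Nat.factorial_ne_zero _, fun g =>
      U.pow_mem_of_index_ne_zero_of_dvd hidx g fun m h1 h2 => Nat.dvd_factorial h1 h2⟩
  obtain ⟨k1, k2⟩ := Pool.Agent.Y155.ZI.tan_pow hσ e
  have hcl : IsClosed (W : Set (Fin N → ℚ_[ℓ])) := Submodule.closed_of_finiteDimensional W
  have hmv : Continuous fun A : Matrix (Fin N) (Fin N) ℚ_[ℓ] => A *ᵥ w :=
    Continuous.matrix_mulVec continuous_id continuous_const
  have h1 := (hmv.tendsto _).comp k1
  have h2 : ((e : ℚ_[ℓ]) • X) *ᵥ w ∈ W := by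
    refine hcl.mem_of_tendsto h1 (Eventually.of_forall fun n => ?_)
    show (((ℓ : ℚ_[ℓ]) ^ n)⁻¹ • (ρ (σ n ^ e) - 1)) *ᵥ w ∈ W
    rw [smul_mulVec, sub_mulVec, one_mulVec]
    exact W.smul_mem _ (W.sub_mem (hW _ (he (σ n)) w hw) hw)
  rw [smul_mulVec] at h2
  exact (W.smul_mem_iff (by exact_mod_cast he0)).1 h2

theorem t : Pool.Agent.Y142.SU.S_DCT := by
  intro ℓ _ N G _ _ _ _ ρ hρ 𝒞 h𝒞 X hX
  set 𝒜 := Algebra.adjoin ℚ_[ℓ] {Y | IsTangent ℓ ρ Y} with h𝒜
  have hsub : ∀ Y, IsTangent ℓ ρ Y → Y ∈ 𝒜 := fun Y hY => Algebra.subset_adjoin hY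
  let S : Subalgebra ℚ_[ℓ] (Module.End ℚ_[ℓ] (Fin N → ℚ_[ℓ])) :=
    𝒜.map (Matrix.toLinAlgEquiv' : Matrix (Fin N) (Fin N) ℚ_[ℓ] ≃ₐ[ℚ_[ℓ]] _).toAlgHom
  have hmem : ∀ X ∈ 𝒜, Matrix.toLin' X ∈ S := fun X hX => ⟨X, hX, rfl⟩
  have hstab : ∀ W : Submodule ℚ_[ℓ] (Fin N → ℚ_[ℓ]),
      (∀ Y, IsTangent ℓ ρ Y → ∀ w ∈ W, Y *ᵥ w ∈ W) → ∀ a ∈ S, ∀ w ∈ W, a w ∈ W := by
    rintro W hW a ⟨A, hA, rfl⟩ w hw
    show A *ᵥ w ∈ W
    replace hA : A ∈ 𝒜 := hA
    rw [h𝒜] at hA
    induction hA using Algebra.adjoin_induction generalizing w with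
    | mem x hx => exact hW x hx w hw
    | algebraMap r =>
      rw [Algebra.algebraMap_eq_smul_one, smul_mulVec, one_mulVec]
      exact W.smul_mem _ hw
    | add x y hx hy h1 h2 =>
      rw [add_mulVec]
      exact W.add_mem (h1 w hw) (h2 w hw)
    | mul x y hx hy h1 h2 =>
      rw [← mulVec_mulVec]
      exact h1 _ (h2 w hw)
  have hmain : Matrix.toLin' X ∈ S := by
    refine dens S ?_ _ ?_
    · intro W hW
      have hW1 : ∀ Y, IsTangent ℓ ρ Y → ∀ w ∈ W, Y *ᵥ w ∈ W := fun Y hY w hw => by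
        have := hW _ (hmem Y (hsub Y hY)) w hw
        rwa [Matrix.toLin'_apply] at this
      obtain ⟨U, hU, h1⟩ := Pool.Agent.Y497.ZO.exp ℓ N G ρ hρ W W le_rfl hW1
      obtain ⟨W', h2, h3⟩ := (h𝒞 U hU).2 W (fun τ hτ w hw => by
        have h2 := W.add_mem (h1 τ hτ w hw) hw
        rwa [sub_add_cancel] at h2)
      exact ⟨W', hstab W' fun Y hY w hw => stab ρ U hU W' h2 Y hY w hw, h3⟩
    · intro d hd
      obtain ⟨D, rfl⟩ : ∃ D : Matrix (Fin N) (Fin N) ℚ_[ℓ], Matrix.toLin' D = d :=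
        ⟨LinearMap.toMatrix' d, Matrix.toLin'_toMatrix' d⟩
      have hD : ∀ X ∈ 𝒜, D * X = X * D := by
        intro X hX
        have h1 := hd _ (hmem X hX)
        rw [Module.End.mul_eq_comp, Module.End.mul_eq_comp, ← Matrix.toLin'_mul,
          ← Matrix.toLin'_mul] at h1
        exact Matrix.toLin'.injective h1
      obtain ⟨⟨U, hU, hnear⟩, -⟩ := Pool.Agent.Y497.ZO.pow ℓ N G ρ hρ
      have hDC : D ∈ 𝒞 := (h𝒞 U hU).1 D fun τ hτ =>
        Pool.Agent.Y758.ZD.comm_near ρ D (fun X hX => hD X (hsub X hX)) τ (hnear _ hτ)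
      have hXD := hX D hDC
      intro v
      rw [Matrix.toLin'_apply, Matrix.toLin'_apply, Matrix.toLin'_apply, Matrix.toLin'_apply,
        mulVec_mulVec, mulVec_mulVec, hXD]
  obtain ⟨Y, hY, hXY⟩ := hmain
  have h2 : Y = X := Matrix.toLin'.injective hXY
  rw [← h2]
  exact hY

end Pool.Agent.Y246.SU.DCT
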